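import Mathlib
import Pool.Agent.Helper63.KFinal

set_option autoImplicit false

open ContinuousLinearMap (adjoint)

namespace Pool.Agent.Results.MP_6cdb1a_an.SpectraDiffer

section defs

variable {H : Type} [NormedAddCommGroup H] [InnerProductSpace ℂ H]

/-- The operator `T - l`. -/
noncomputable def shift (T : H →L[ℂ] H) (l : ℂ) : H →L[ℂ] H := T - l • (1 : H →L[ℂ] H)

/-- The operators `T₁` and `T₂` commute. -/
def CommutingPair (T₁ T₂ : H →L[ℂ] H) : Prop := ∀ x, T₁ (T₂ x) = T₂ (T₁ x)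

/-- The first map `D⁰ x = (T₁ x, T₂ x)` of the Koszul complex. -/
def D0 (T₁ T₂ : H →L[ℂ] H) (x : H) : H × H := (T₁ x, T₂ x)

/-- The second map `D¹ (x, y) = -T₂ x + T₁ y` of the Koszul complex. -/
def D1 (T₁ T₂ : H →L[ℂ] H) (p : H × H) : H := -(T₂ p.1) + T₁ p.2

/-- The pair is Taylor invertible: `0 → H → H ⊕ H → H → 0` is exact at its three places. -/
def TaylorInvertible (T₁ T₂ : H →L[ℂ] H) : Prop :=
  (∀ x, D0 T₁ T₂ x = 0 → x = 0) ∧
    (∀ p, D1 T₁ T₂ p = 0 → ∃ x, D0 T₁ T₂ x = p) ∧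
      ∀ z, ∃ p, D1 T₁ T₂ p = z

/-- The Taylor spectrum of a pair. -/
def taylorSpectrum (T₁ T₂ : H →L[ℂ] H) : Set (ℂ × ℂ) :=
  {l | ¬ TaylorInvertible (shift T₁ l.1) (shift T₂ l.2)}

/-- The vector `p(S₁, S₂) x` for a polynomial `p` in two variables. -/
noncomputable def polyVec (S₁ S₂ : H →L[ℂ] H) (p : MvPolynomial (Fin 2) ℂ) (x : H) : H :=
  ∑ m ∈ p.support, p.coeff m • (S₁)^[m 0] ((S₂)^[m 1] x)

/-- The pair is cyclic: for some `x` the vectors `p(S₁, S₂) x` are dense. -/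
def CyclicPair (S₁ S₂ : H →L[ℂ] H) : Prop :=
  ∃ x : H, Dense (Set.range fun p : MvPolynomial (Fin 2) ℂ => polyVec S₁ S₂ p x)

/-- `A` is the adjoint of `T`. -/
def IsAdjoint (T A : H →L[ℂ] H) : Prop := ∀ x y : H, inner ℂ (T x) y = inner ℂ x (A y)

/-- The vector `(T₁ A₁ + T₂ A₂) x`. -/
def rowSum (T₁ A₁ T₂ A₂ : H →L[ℂ] H) (x : H) : H := T₁ (A₁ x) + T₂ (A₂ x)

/-- The pair is right invertible: `T₁ T₁* + T₂ T₂*` has a bounded two-sided inverse `B`. -/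
def RightInvertible (T₁ T₂ : H →L[ℂ] H) : Prop :=
  ∃ A₁ A₂ B : H →L[ℂ] H, IsAdjoint T₁ A₁ ∧ IsAdjoint T₂ A₂ ∧
    (∀ x, B (rowSum T₁ A₁ T₂ A₂ x) = x) ∧ ∀ x, rowSum T₁ A₁ T₂ A₂ (B x) = x

/-- The right spectrum of a pair. -/
def rightSpectrum (T₁ T₂ : H →L[ℂ] H) : Set (ℂ × ℂ) :=
  {l | ¬ RightInvertible (shift T₁ l.1) (shift T₂ l.2)}

/-- The operator `N` is normal: it commutes with its adjoint. -/
def NormalOp (N : H →L[ℂ] H) : Prop := ∃ A : H →L[ℂ] H, IsAdjoint N A ∧ CommutingPair N A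

/-- `N` extends `S`, where `H` is embedded in `K` through the linear isometry `V`. -/
def Extends {K : Type} [NormedAddCommGroup K] [InnerProductSpace ℂ K] (V : H →ₗᵢ[ℂ] K)
    (N : K →L[ℂ] K) (S : H →L[ℂ] H) : Prop := ∀ x, N (V x) = V (S x)

/-- The pair is subnormal: it is the restriction of a commuting pair of normal operators on a
Hilbert space `K` which contains `H` (through the linear isometry `V`). -/
def SubnormalPair (S₁ S₂ : H →L[ℂ] H) : Prop :=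
  ∃ (K : Type) (_ : NormedAddCommGroup K) (_ : InnerProductSpace ℂ K) (_ : CompleteSpace K)
    (V : H →ₗᵢ[ℂ] K) (N₁ N₂ : K →L[ℂ] K),
    NormalOp N₁ ∧ NormalOp N₂ ∧ CommutingPair N₁ N₂ ∧ Extends V N₁ S₁ ∧ Extends V N₂ S₂

end defs

section lemmas

variable {H : Type} [NormedAddCommGroup H] [InnerProductSpace ℂ H] [CompleteSpace H]

/-- If the row `(u, v) ↦ T₁ u + T₂ v` is onto, then `T₁ T₁* + T₂ T₂*` is invertible. -/
theorem isUnit_of_onto (T₁ T₂ : H →L[ℂ] H) (h : ∀ z, ∃ u v, T₁ u + T₂ v = z) :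
    IsUnit (T₁ * adjoint T₁ + T₂ * adjoint T₂) := by
  set A : H →L[ℂ] H := T₁ * adjoint T₁ + T₂ * adjoint T₂ with hA
  let R : H × H →L[ℂ] H := T₁.comp (ContinuousLinearMap.fst ℂ H H) +
    T₂.comp (ContinuousLinearMap.snd ℂ H H)
  have hR : Function.Surjective R := fun z => by
    obtain ⟨u, v, huv⟩ := h z
    exact ⟨(u, v), huv⟩
  obtain ⟨C, hC, hCR⟩ := R.exists_preimage_norm_le hR
  have hAx : ∀ x, inner ℂ x (A x) = ((‖adjoint T₁ x‖ ^ 2 + ‖adjoint T₂ x‖ ^ 2 : ℝ) : ℂ) := by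
    intro x
    have e : A x = T₁ (adjoint T₁ x) + T₂ (adjoint T₂ x) := rfl
    have e1 : ∀ T : H →L[ℂ] H, inner ℂ x (T (adjoint T x)) = ((‖adjoint T x‖ ^ 2 : ℝ) : ℂ) := by
      intro T
      rw [← ContinuousLinearMap.adjoint_inner_left T, inner_self_eq_norm_sq_to_K]
      push_cast
      rfl
    rw [e, inner_add_right, e1, e1]
    push_cast
    rfl
  have hb : ∀ x, ‖x‖ ≤ C * (‖adjoint T₁ x‖ + ‖adjoint T₂ x‖) := by
    intro x
    obtain ⟨p, hp, hpn⟩ := hCR x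
    have h1 : ‖x‖ ^ 2 ≤ (‖adjoint T₁ x‖ + ‖adjoint T₂ x‖) * (C * ‖x‖) := by
      have e1 : inner ℂ x x = inner ℂ (adjoint T₁ x) p.1 + inner ℂ (adjoint T₂ x) p.2 := by
        conv_lhs => rw [← hp]
        rw [hp]
        have e2 : x = T₁ p.1 + T₂ p.2 := hp.symm
        conv_lhs => rw [e2]
        rw [← e2, ContinuousLinearMap.adjoint_inner_left, ContinuousLinearMap.adjoint_inner_left,
          ← inner_add_right]
        rw [← e2]
      have e3 : ‖x‖ ^ 2 = ‖inner ℂ x x‖ := by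
        rw [inner_self_eq_norm_sq_to_K, norm_pow]
        simp
      rw [e3, e1]
      have n1 := norm_inner_le_norm (𝕜 := ℂ) (adjoint T₁ x) p.1
      have n2 := norm_inner_le_norm (𝕜 := ℂ) (adjoint T₂ x) p.2
      have m1 : ‖p.1‖ ≤ C * ‖x‖ := (norm_fst_le p).trans hpn
      have m2 : ‖p.2‖ ≤ C * ‖x‖ := (norm_snd_le p).trans hpn
      calc ‖inner ℂ (adjoint T₁ x) p.1 + inner ℂ (adjoint T₂ x) p.2‖
          ≤ ‖inner ℂ (adjoint T₁ x) p.1‖ + ‖inner ℂ (adjoint T₂ x) p.2‖ := norm_add_le _ _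
        _ ≤ ‖adjoint T₁ x‖ * ‖p.1‖ + ‖adjoint T₂ x‖ * ‖p.2‖ := add_le_add n1 n2
        _ ≤ ‖adjoint T₁ x‖ * (C * ‖x‖) + ‖adjoint T₂ x‖ * (C * ‖x‖) :=
            add_le_add (mul_le_mul_of_nonneg_left m1 (norm_nonneg _))
              (mul_le_mul_of_nonneg_left m2 (norm_nonneg _))
        _ = _ := by ring
    by_cases hx : ‖x‖ = 0
    · rw [hx]
      positivity
    · have hx0 : 0 < ‖x‖ := lt_of_le_of_ne (norm_nonneg _) (Ne.symm hx)
      have h2 : ‖x‖ * ‖x‖ ≤ (C * (‖adjoint T₁ x‖ + ‖adjoint T₂ x‖)) * ‖x‖ := by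
        nlinarith
      exact le_of_mul_le_mul_right h2 hx0
  have hlow : ∀ x, ‖x‖ ≤ (2 * C ^ 2) * ‖A x‖ := by
    intro x
    have h1 := hb x
    have h2 : ‖adjoint T₁ x‖ ^ 2 + ‖adjoint T₂ x‖ ^ 2 ≤ ‖x‖ * ‖A x‖ := by
      have h3 := norm_inner_le_norm (𝕜 := ℂ) x (A x)
      rw [hAx x, Complex.norm_real, Real.norm_of_nonneg (by positivity)] at h3
      exact h3
    have h3 : ‖x‖ ^ 2 ≤ C ^ 2 * (‖adjoint T₁ x‖ + ‖adjoint T₂ x‖) ^ 2 := by
      rw [← mul_pow]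
      exact pow_le_pow_left₀ (norm_nonneg _) h1 2
    have h4 : (‖adjoint T₁ x‖ + ‖adjoint T₂ x‖) ^ 2 ≤
        2 * (‖adjoint T₁ x‖ ^ 2 + ‖adjoint T₂ x‖ ^ 2) := by
      nlinarith [sq_nonneg (‖adjoint T₁ x‖ - ‖adjoint T₂ x‖)]
    have h5 : ‖x‖ ^ 2 ≤ (2 * C ^ 2 * ‖A x‖) * ‖x‖ := by
      have hC2 : 0 ≤ C ^ 2 := sq_nonneg C
      calc ‖x‖ ^ 2 ≤ C ^ 2 * (‖adjoint T₁ x‖ + ‖adjoint T₂ x‖) ^ 2 := h3
        _ ≤ C ^ 2 * (2 * (‖adjoint T₁ x‖ ^ 2 + ‖adjoint T₂ x‖ ^ 2)) :=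
            mul_le_mul_of_nonneg_left h4 hC2
        _ ≤ C ^ 2 * (2 * (‖x‖ * ‖A x‖)) := by
            apply mul_le_mul_of_nonneg_left _ hC2
            linarith
        _ = _ := by ring
    by_cases hx : ‖x‖ = 0
    · rw [hx]
      positivity
    · have hx0 : 0 < ‖x‖ := lt_of_le_of_ne (norm_nonneg _) (Ne.symm hx)
      have h6 : ‖x‖ * ‖x‖ ≤ (2 * C ^ 2 * ‖A x‖) * ‖x‖ := by nlinarith
      exact le_of_mul_le_mul_right h6 hx0
  have hanti : AntilipschitzWith (Real.toNNReal (2 * C ^ 2)) A := by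
    apply ContinuousLinearMap.antilipschitz_of_bound
    intro x
    rw [Real.coe_toNNReal _ (by positivity)]
    exact hlow x
  have hself : adjoint A = A := by
    rw [hA, map_add]
    have e : ∀ T : H →L[ℂ] H, adjoint (T * adjoint T) = T * adjoint T := fun T => by
      rw [ContinuousLinearMap.mul_def, ContinuousLinearMap.adjoint_comp,
        ContinuousLinearMap.adjoint_adjoint]
    rw [e, e]
  rw [ContinuousLinearMap.isUnit_iff_bijective]
  refine ⟨hanti.injective, ?_⟩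
  have hcl : IsClosed (Set.range A) := hanti.isClosed_range A.uniformContinuous
  have hrange : (LinearMap.range (A : H →ₗ[ℂ] H))ᗮ = ⊥ := by
    rw [Submodule.eq_bot_iff]
    intro y hy
    have h1 : ∀ x, inner ℂ (A x) y = 0 := fun x => hy (A x) ⟨x, rfl⟩
    have h2 : inner ℂ y (A y) = 0 := by
      rw [← ContinuousLinearMap.adjoint_inner_left, hself]
      exact h1 y
    have h3 := hAx y
    rw [h2] at h3
    have h4 : ‖adjoint T₁ y‖ ^ 2 + ‖adjoint T₂ y‖ ^ 2 = 0 := by exact_mod_cast h3.symm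
    have h5 : ‖adjoint T₁ y‖ = 0 := by nlinarith [sq_nonneg ‖adjoint T₁ y‖, sq_nonneg ‖adjoint T₂ y‖]
    have h6 : ‖adjoint T₂ y‖ = 0 := by nlinarith [sq_nonneg ‖adjoint T₁ y‖, sq_nonneg ‖adjoint T₂ y‖]
    have h7 := hb y
    rw [h5, h6] at h7
    have h8 : ‖y‖ ≤ 0 := by simpa using h7
    exact norm_le_zero_iff.mp h8
  have htop : (LinearMap.range (A : H →ₗ[ℂ] H)) = ⊤ := by
    have hc : IsClosed ((LinearMap.range (A : H →ₗ[ℂ] H) : Submodule ℂ H) : Set H) := hcl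
    have h1 := (Submodule.topologicalClosure_eq_top_iff (K := LinearMap.range (A : H →ₗ[ℂ] H))).mpr
      hrange
    rwa [hc.submodule_topologicalClosure_eq] at h1
  exact LinearMap.range_eq_top.mp htop

theorem isAdjoint_adjoint (T : H →L[ℂ] H) : IsAdjoint T (adjoint T) := fun x y =>
  (ContinuousLinearMap.adjoint_inner_right T x y).symm

theorem rightInvertible_of_onto (T₁ T₂ : H →L[ℂ] H) (h : ∀ z, ∃ u v, T₁ u + T₂ v = z) :
    RightInvertible T₁ T₂ := by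
  obtain ⟨B, hB1, hB2⟩ := (isUnit_iff_exists.mp (isUnit_of_onto T₁ T₂ h))
  refine ⟨adjoint T₁, adjoint T₂, B, isAdjoint_adjoint _, isAdjoint_adjoint _, fun x => ?_,
    fun x => ?_⟩
  · exact congrArg (fun f : H →L[ℂ] H => f x) hB2
  · exact congrArg (fun f : H →L[ℂ] H => f x) hB1

omit [CompleteSpace H] in
/-- The span of the orbit consists of the vectors `p(S₁, S₂) x`. -/
theorem span_subset (S₁ S₂ : H →L[ℂ] H) (x : H) :
    ((Submodule.span ℂ (Set.range (fun p : ℕ × ℕ => (S₁ ^ p.1 * S₂ ^ p.2) x)) :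
      Submodule ℂ H) : Set H) ⊆
      Set.range fun p : MvPolynomial (Fin 2) ℂ => polyVec S₁ S₂ p x := by
  let b := MvPolynomial.basisMonomials (Fin 2) ℂ
  let φ : MvPolynomial (Fin 2) ℂ →ₗ[ℂ] H := b.constr ℂ fun m => (S₁)^[m 0] ((S₂)^[m 1] x)
  have hpow : ∀ (i j : ℕ), (S₁ ^ i * S₂ ^ j) x = (S₁)^[i] ((S₂)^[j] x) := by
    intro i j
    have e : (S₁ ^ i * S₂ ^ j) x = (S₁ ^ i) ((S₂ ^ j) x) := rfl
    rw [e, ContinuousLinearMap.coe_pow', ContinuousLinearMap.coe_pow']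
  have hmon : ∀ (m : Fin 2 →₀ ℕ) (c : ℂ), φ (MvPolynomial.monomial m c) =
      c • (S₁)^[m 0] ((S₂)^[m 1] x) := by
    intro m c
    have e1 : MvPolynomial.monomial m c = c • b m := by
      rw [MvPolynomial.coe_basisMonomials, MvPolynomial.smul_monomial, smul_eq_mul, mul_one]
    rw [e1, map_smul, Module.Basis.constr_basis]
  have hφ : ∀ p, φ p = polyVec S₁ S₂ p x := by
    intro p
    conv_lhs => rw [← MvPolynomial.support_sum_monomial_coeff p]
    rw [map_sum]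
    exact Finset.sum_congr rfl fun m _ => hmon m _
  intro y hy
  have h1 : Submodule.span ℂ (Set.range (fun p : ℕ × ℕ => (S₁ ^ p.1 * S₂ ^ p.2) x)) ≤
      LinearMap.range φ := by
    rw [Submodule.span_le]
    rintro _ ⟨⟨i, j⟩, rfl⟩
    refine ⟨MvPolynomial.monomial (Finsupp.single 0 i + Finsupp.single 1 j) 1, ?_⟩
    rw [hmon]
    simp [hpow]
  obtain ⟨p, hp⟩ := h1 hy
  exact ⟨p, (hφ p).symm.trans hp⟩

end lemmas

/-- There is a cyclic subnormal commuting pair and a point at which it is right invertible and not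
Taylor invertible: its right spectrum is a proper part of its Taylor spectrum. -/
theorem result :
    ∃ (H : Type) (_ : NormedAddCommGroup H) (_ : InnerProductSpace ℂ H) (_ : CompleteSpace H)
      (S₁ S₂ : H →L[ℂ] H),
      CommutingPair S₁ S₂ ∧ SubnormalPair S₁ S₂ ∧ CyclicPair S₁ S₂ ∧
        ∃ l, l ∉ rightSpectrum S₁ S₂ ∧ l ∈ taylorSpectrum S₁ S₂ := by
  by_contra hne
  apply Pool.Agent.Helper63.Koszul.final
  intro H i1 i2 i3 S₁ S₂ hcomm hsub hcyc μ₁ μ₂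
  refine ⟨fun hon => ?_, fun h => h.1⟩
  by_contra hT
  apply hne
  have hR : RightInvertible (shift S₁ μ₁) (shift S₂ μ₂) := rightInvertible_of_onto _ _ hon
  have hNT : ¬ TaylorInvertible (shift S₁ μ₁) (shift S₂ μ₂) := by
    rintro ⟨t1, t2, t3⟩
    apply hT
    refine ⟨hon, ?_, ?_⟩
    · intro u v huv
      obtain ⟨x, hx⟩ := t2 (-v, u) (by
        simp only [D1, map_neg, neg_neg]
        rw [add_comm]
        exact huv)
      have hx1 := congrArg Prod.fst hx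
      have hx2 := congrArg Prod.snd hx
      simp only [D0] at hx1 hx2
      refine ⟨x, hx2.symm, ?_⟩
      have h3 : (S₁ - μ₁ • (1 : H →L[ℂ] H)) x = -v := hx1
      rw [h3, neg_neg]
    · intro x hx2 hx1
      apply t1
      have e1 : shift S₁ μ₁ x = 0 := hx1
      have e2 : shift S₂ μ₂ x = 0 := hx2
      simp only [D0]
      rw [e1, e2]
      rfl
  refine ⟨H, i1, i2, i3, S₁, S₂, ?_, ?_, ?_, (μ₁, μ₂), ?_, hNT⟩
  · intro x
    exact congrArg (fun f : H →L[ℂ] H => f x) hcomm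
  · obtain ⟨K, k1, k2, k3, V, N₁, N₂, hV, n1, n2, hN, e1, e2⟩ := hsub
    refine ⟨K, k1, k2, k3, ⟨V.toLinearMap, hV⟩, N₁, N₂, ?_, ?_, ?_, ?_, ?_⟩
    · refine ⟨adjoint N₁, isAdjoint_adjoint N₁, fun x => ?_⟩
      have h3 := n1.star_comm_self
      rw [ContinuousLinearMap.star_eq_adjoint] at h3
      exact congrArg (fun f : K →L[ℂ] K => f x) h3.eq.symm
    · refine ⟨adjoint N₂, isAdjoint_adjoint N₂, fun x => ?_⟩
      have h3 := n2.star_comm_self
      rw [ContinuousLinearMap.star_eq_adjoint] at h3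
      exact congrArg (fun f : K →L[ℂ] K => f x) h3.eq.symm
    · intro x
      exact congrArg (fun f : K →L[ℂ] K => f x) hN
    · intro x
      exact congrArg (fun f : H →L[ℂ] K => f x) e1
    · intro x
      exact congrArg (fun f : H →L[ℂ] K => f x) e2
  · obtain ⟨x, hx⟩ := hcyc
    exact ⟨x, hx.mono (span_subset S₁ S₂ x)⟩
  · intro h
    exact h hR

end Pool.Agent.Results.MP_6cdb1a_an.SpectraDiffer
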